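import Pool.Agent.H5.TourDefs

set_option autoImplicit false

namespace Pool.Agent.Results.MP_ebd9af_co.Counter

open Pool.Agent.H5.TourDefs

def A : Finset (Fin 5 × Fin 5) :=
  {(0, 4), (1, 0), (2, 0), (2, 1), (3, 0), (3, 1), (3, 2), (4, 1), (4, 2), (4, 3)}

def B : Finset (Fin 5 × Fin 5) :=
  {(0, 4), (1, 0), (2, 0), (2, 1), (0, 3), (3, 1), (3, 2), (1, 4), (4, 2), (4, 3)}

def f (p : Fin 5 × Fin 5) : Fin 5 × Fin 5 :=
  if p = (3, 0) then (0, 3) else if p = (4, 1) then (1, 4) else p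

lemma strong (X : Finset (Fin 5 × Fin 5)) (h : ∀ u : Fin 5, (u + 1, u) ∈ X) : Strong X := by
  have k : ∀ (m : ℕ) (v : Fin 5), Relation.ReflTransGen (fun a b => (a, b) ∈ X)
      (v + Fin.ofNat 5 m) v := by
    intro m v
    induction m with
    | zero => simpa using Relation.ReflTransGen.refl
    | succ m ih =>
      refine Relation.ReflTransGen.head ?_ ih
      have e : v + Fin.ofNat 5 (m + 1) = v + Fin.ofNat 5 m + 1 := by
        rw [add_assoc]
        congr 1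
        ext
        simp [Fin.val_add]
      rw [e]
      exact h _
  intro u v
  have := k (u - v).val v
  simpa using this

theorem result : ∃ (n : ℕ) (A B : Finset (Fin n × Fin n)) (φ : Fin n × Fin n → Fin n × Fin n),
    0 < n ∧ IsTournament A ∧ IsTournament B ∧ Strong A ∧ Strong B ∧ Set.BijOn φ A B ∧
    (∀ C, IsCircuit4 A C → IsCircuit4 B (C.image φ)) ∧ ¬ IsoOrConverse A B := by
  refine ⟨5, A, B, f, by norm_num, ⟨by decide, by decide⟩, ⟨by decide, by decide⟩,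
    strong A (by decide), strong B (by decide), ⟨?_, ?_, ?_⟩, ?_, ?_⟩
  · exact fun p hp => (show ∀ p ∈ A, f p ∈ B by decide) p hp
  · exact fun p hp q hq => (show ∀ p ∈ A, ∀ q ∈ A, f p = f q → p = q by decide +kernel) p hp q hq
  · exact fun q hq => (show ∀ q ∈ B, ∃ p ∈ A, f p = q by decide +kernel) q hq
  · rintro _ ⟨a, b, c, d, h1, rfl, h2⟩
    have k : ∀ a b c d : Fin 5, [a, b, c, d].Nodup → (a, b) ∈ A → (b, c) ∈ A → (c, d) ∈ A →
        (d, a) ∈ A → f (a, b) = (a, b) ∧ f (b, c) = (b, c) ∧ f (c, d) = (c, d) ∧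
          f (d, a) = (d, a) ∧ (a, b) ∈ B ∧ (b, c) ∈ B ∧ (c, d) ∈ B ∧ (d, a) ∈ B := by
      decide +kernel
    obtain ⟨e1, e2, e3, e4, m1, m2, m3, m4⟩ := k a b c d h1 (h2 (by simp)) (h2 (by simp))
      (h2 (by simp)) (h2 (by simp))
    have e : ({(a, b), (b, c), (c, d), (d, a)} : Finset (Fin 5 × Fin 5)).image f =
        {(a, b), (b, c), (c, d), (d, a)} := by
      simp only [Finset.image_insert, Finset.image_singleton, e1, e2, e3, e4]
    refine ⟨a, b, c, d, h1, e, ?_⟩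
    rw [e]
    simp only [Finset.insert_subset_iff, Finset.singleton_subset_iff]
    exact ⟨m1, m2, m3, m4⟩
  · have k : ∀ a b c d : Fin 5, [b, c, d].Nodup →
        ¬ ((a, b) ∈ B ∧ (a, c) ∈ B ∧ (a, d) ∈ B) ∧ ¬ ((b, a) ∈ B ∧ (c, a) ∈ B ∧ (d, a) ∈ B) := by
      decide +kernel
    rintro ⟨e, h | h⟩
    · exact (k (e 4) (e 1) (e 2) (e 3) (by simp)).1
        ⟨(h _ _).1 (by decide), (h _ _).1 (by decide), (h _ _).1 (by decide)⟩
    · exact (k (e 4) (e 1) (e 2) (e 3) (by simp)).2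
        ⟨(h _ _).1 (by decide), (h _ _).1 (by decide), (h _ _).1 (by decide)⟩

end Pool.Agent.Results.MP_ebd9af_co.Counter
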